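import Pool.Agent.H83.VU.TargetsG

/-!
# Row EIR: rough numbers against prime numbers
-/

set_option autoImplicit false

open Finset

namespace Pool.Agent.H83.VU

/-- the inverse as a monoid homomorphism -/
noncomputable def invHom : ℕ →* ℝ where
  toFun n := (n : ℝ)⁻¹
  map_one' := by simp
  map_mul' := by
    intro a b
    push_cast
    rw [mul_inv]

theorem mem_PQ {z : ℝ} {Y p : ℕ} (hz : 0 ≤ z) :
    p ∈ PQ z Y ↔ p.Prime ∧ z < p ∧ p ≤ Y := by
  unfold PQ
  rw [mem_filter, mem_Ioc, Nat.floor_natCast, Nat.floor_lt hz]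
  tauto

theorem mem_RR {z : ℝ} {Y n : ℕ} :
    n ∈ RR z Y ↔ (1 ≤ n ∧ n ≤ Y) ∧ ∀ p : ℕ, p.Prime → p ∣ n → z < (p : ℝ) := by
  classical
  unfold RR
  simp only [mem_filter, mem_Icc]

theorem sum_RR_le (z : ℝ) (hz : 1 ≤ z) (Y : ℕ) :
    ∑ m ∈ RR z Y, 1 / (m : ℝ) ≤ ∏ p ∈ PQ z Y, (1 - 1 / (p : ℝ))⁻¹ := by
  classical
  have hz0 : 0 ≤ z := by linarith
  have h := EulerProduct.summable_and_hasSum_factoredNumbers_prod_filter_prime_geometric
    (f := invHom) (by
      intro p hp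
      change ‖((p : ℝ))⁻¹‖ < 1
      rw [norm_inv, Real.norm_natCast]
      exact inv_lt_one_of_one_lt₀ (by exact_mod_cast hp.one_lt)) (PQ z Y)
  have h2 : (PQ z Y).filter (fun p => p.Prime) = PQ z Y := by
    apply filter_true_of_mem
    intro p hp
    exact ((mem_PQ hz0).1 hp).1
  rw [h2] at h
  have h3 : ∏ p ∈ PQ z Y, (1 - 1 / (p : ℝ))⁻¹ = ∏ p ∈ PQ z Y, (1 - invHom p)⁻¹ := by
    apply prod_congr rfl
    intro p _
    rw [one_div]
    rfl
  rw [h3]
  have hsub : ∀ m ∈ RR z Y, m ∈ Nat.factoredNumbers (PQ z Y) := by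
    intro m hm
    rw [mem_RR] at hm
    rw [Nat.mem_factoredNumbers']
    intro p hp hpm
    rw [mem_PQ hz0]
    exact ⟨hp, hm.2 p hp hpm, (Nat.le_of_dvd (by omega) hpm).trans hm.1.2⟩
  have h4 : ∑ m ∈ RR z Y, 1 / (m : ℝ) =
      ∑ m ∈ (RR z Y).attach.map ⟨fun m => (⟨m.1, hsub m.1 m.2⟩ : Nat.factoredNumbers (PQ z Y)),
        fun a b hab => by
          apply Subtype.ext
          exact congrArg (fun t : Nat.factoredNumbers (PQ z Y) => (t : ℕ)) hab⟩, invHom m := by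
    rw [sum_map, ← sum_attach]
    apply sum_congr rfl
    intro m _
    rw [one_div]
    rfl
  rw [h4]
  apply sum_le_hasSum _ _ h.2
  intro m _
  exact inv_nonneg.2 (Nat.cast_nonneg _)

theorem norm_ni_mul_sub_one (u : ℝ) (m n : ℕ) (hm : m ≠ 0) (hn : n ≠ 0) :
    ‖ni u (m * n) - 1‖ ≤ ‖ni u m - 1‖ + ‖ni u n - 1‖ := by
  rw [ni_mul u m n hm hn]
  have h : ni u m * ni u n - 1 = ni u m * (ni u n - 1) + (ni u m - 1) := by ring
  rw [h]
  refine (norm_add_le _ _).trans ?_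
  rw [norm_mul, norm_ni, one_mul]
  linarith

theorem norm_ni_prod (u : ℝ) : ∀ l : List ℕ, (∀ p ∈ l, p ≠ 0) →
    ‖ni u l.prod - 1‖ ≤ (l.map fun p => ‖ni u p - 1‖).sum := by
  intro l
  induction l with
  | nil => intro _; simp [ni]
  | cons a l ih =>
    intro h
    rw [List.prod_cons, List.map_cons, List.sum_cons]
    have ha : a ≠ 0 := h a (by simp)
    have hl : ∀ p ∈ l, p ≠ 0 := fun p hp => h p (by simp [hp])
    have hl0 : l.prod ≠ 0 := by
      intro h0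
      rw [List.prod_eq_zero_iff] at h0
      exact hl 0 h0 rfl
    exact (norm_ni_mul_sub_one u a l.prod ha hl0).trans (by linarith [ih hl])

theorem norm_ni_sub_one (u : ℝ) (n : ℕ) (hn : n ≠ 0) :
    ‖ni u n - 1‖ ≤ ∑ p ∈ n.primeFactors, (n.factorization p : ℝ) * ‖ni u p - 1‖ := by
  have h1 := norm_ni_prod u n.primeFactorsList (fun p hp =>
    (Nat.prime_of_mem_primeFactorsList hp).ne_zero)
  rw [Nat.prod_primeFactorsList hn] at h1
  refine h1.trans (le_of_eq ?_)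
  rw [Finset.sum_list_map_count]
  apply sum_congr rfl
  intro p _
  rw [Nat.primeFactorsList_count_eq, nsmul_eq_mul]

theorem fact_eq (n Y p : ℕ) (hp : p.Prime) (hn : n ≠ 0) (hY : n ≤ Y) :
    (n.factorization p : ℝ) = ∑ i ∈ Icc 1 Y, if p ^ i ∣ n then (1 : ℝ) else 0 := by
  rw [← sum_filter, sum_const, nsmul_eq_mul, mul_one]
  have h : (Icc 1 Y).filter (fun i => p ^ i ∣ n) = Icc 1 (n.factorization p) := by
    ext i
    rw [mem_filter, mem_Icc, mem_Icc, hp.pow_dvd_iff_le_factorization hn]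
    constructor
    · rintro ⟨⟨h1, _⟩, h2⟩
      exact ⟨h1, h2⟩
    · rintro ⟨h1, h2⟩
      refine ⟨⟨h1, ?_⟩, h2⟩
      have h3 := Nat.factorization_lt p hn
      omega
  rw [h, Nat.card_Icc]
  simp

theorem geom_le (p Y : ℕ) (hp : 2 ≤ p) : ∑ i ∈ Icc 1 Y, ((p : ℝ) ^ i)⁻¹ ≤ 2 / p := by
  have hp' : (2 : ℝ) ≤ p := by exact_mod_cast hp
  have hp0 : (0 : ℝ) < p := by linarith
  have h : ∀ Y : ℕ, ∑ i ∈ Icc 1 Y, ((p : ℝ) ^ i)⁻¹ ≤ 2 / p - ((p : ℝ) ^ (Y + 1))⁻¹ * 2 := by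
    intro Y
    induction Y with
    | zero =>
      simp only [zero_add, pow_one]
      rw [Icc_eq_empty (by omega), sum_empty]
      apply le_of_eq
      field_simp
      norm_num
    | succ Y ih =>
      rw [sum_Icc_succ_top (by omega)]
      have h2 : ((p : ℝ) ^ (Y + 1 + 1))⁻¹ * 2 ≤ ((p : ℝ) ^ (Y + 1))⁻¹ := by
        rw [pow_succ _ (Y + 1), mul_inv]
        have h3 : (p : ℝ)⁻¹ * 2 ≤ 1 := by
          rw [inv_mul_le_iff₀ hp0]; linarith
        have h4 : 0 < ((p : ℝ) ^ (Y + 1))⁻¹ := by positivity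
        nlinarith
      linarith
  refine (h Y).trans ?_
  have h4 : 0 < ((p : ℝ) ^ (Y + 1))⁻¹ := by positivity
  linarith

theorem sum_RR_dvd (z : ℝ) (Y q : ℕ) (hq : 1 ≤ q) :
    ∑ n ∈ RR z Y, (if q ∣ n then 1 / (n : ℝ) else 0) ≤ (q : ℝ)⁻¹ * ∑ m ∈ RR z Y, 1 / (m : ℝ) := by
  rw [← sum_filter, mul_sum]
  have h : ∑ n ∈ (RR z Y).filter (fun n => q ∣ n), 1 / (n : ℝ) =
      ∑ m ∈ ((RR z Y).filter (fun n => q ∣ n)).image (fun n => n / q), (q : ℝ)⁻¹ * (1 / (m : ℝ)) := by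
    rw [sum_image]
    · apply sum_congr rfl
      intro n hn
      rw [mem_filter] at hn
      obtain ⟨m, rfl⟩ := hn.2
      rw [Nat.mul_div_cancel_left m (by omega)]
      push_cast
      rw [one_div, mul_inv, one_div]
    · intro a ha b hb hab
      rw [mem_coe, mem_filter] at ha hb
      obtain ⟨a', rfl⟩ := ha.2
      obtain ⟨b', rfl⟩ := hb.2
      simp only [Nat.mul_div_cancel_left _ (show 0 < q by omega)] at hab
      rw [hab]
  rw [h]
  apply sum_le_sum_of_subset_of_nonneg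
  · intro m hm
    rw [mem_image] at hm
    obtain ⟨n, hn, rfl⟩ := hm
    rw [mem_filter] at hn
    obtain ⟨m, rfl⟩ := hn.2
    rw [Nat.mul_div_cancel_left m (by omega)]
    have h1 := mem_RR.1 hn.1
    have hm1 : 1 ≤ m := by
      rcases Nat.eq_zero_or_pos m with h0 | h0
      · rw [h0, mul_zero] at h1; omega
      · exact h0
    rw [mem_RR]
    refine ⟨⟨hm1, ?_⟩, ?_⟩
    · exact (Nat.le_mul_of_pos_left m (by omega)).trans h1.1.2
    · intro p hp hpm
      exact h1.2 p hp (hpm.mul_left q)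
  · intro m _ _
    positivity

theorem pf_EIR : T_EIR := by
  intro u z Y hz
  have hz0 : 0 ≤ z := by linarith
  have hPi : 0 ≤ ∑ m ∈ RR z Y, 1 / (m : ℝ) := sum_nonneg fun m _ => by positivity
  calc ∑ n ∈ RR z Y, 1 / (n : ℝ) * ‖ni u n - 1‖
      ≤ ∑ n ∈ RR z Y, ∑ p ∈ PQ z Y, ∑ i ∈ Icc 1 Y,
          ‖ni u p - 1‖ * (if p ^ i ∣ n then 1 / (n : ℝ) else 0) := by
        apply sum_le_sum
        intro n hn
        have hn' := mem_RR.1 hn
        have hn0 : n ≠ 0 := by omega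
        have h1 := norm_ni_sub_one u n hn0
        have h2 : ∑ p ∈ n.primeFactors, (n.factorization p : ℝ) * ‖ni u p - 1‖ ≤
            ∑ p ∈ PQ z Y, (n.factorization p : ℝ) * ‖ni u p - 1‖ := by
          apply sum_le_sum_of_subset_of_nonneg
          · intro p hp
            rw [Nat.mem_primeFactors] at hp
            rw [mem_PQ hz0]
            exact ⟨hp.1, hn'.2 p hp.1 hp.2.1, (Nat.le_of_dvd (by omega) hp.2.1).trans hn'.1.2⟩
          · intro p _ _
            positivity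
        calc 1 / (n : ℝ) * ‖ni u n - 1‖ ≤ 1 / (n : ℝ) *
              ∑ p ∈ PQ z Y, (n.factorization p : ℝ) * ‖ni u p - 1‖ :=
              mul_le_mul_of_nonneg_left (h1.trans h2) (by positivity)
          _ = ∑ p ∈ PQ z Y, ∑ i ∈ Icc 1 Y,
                ‖ni u p - 1‖ * (if p ^ i ∣ n then 1 / (n : ℝ) else 0) := by
              rw [mul_sum]
              apply sum_congr rfl
              intro p hp
              have hpp := ((mem_PQ hz0).1 hp).1
              rw [fact_eq n Y p hpp hn0 hn'.1.2, ← mul_sum]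
              have h5 : ∑ i ∈ Icc 1 Y, (if p ^ i ∣ n then 1 / (n : ℝ) else 0) =
                  1 / (n : ℝ) * ∑ i ∈ Icc 1 Y, (if p ^ i ∣ n then (1 : ℝ) else 0) := by
                rw [mul_sum]
                apply sum_congr rfl
                intro i _
                split_ifs <;> simp
              rw [h5]
              ring
    _ = ∑ p ∈ PQ z Y, ∑ i ∈ Icc 1 Y, ‖ni u p - 1‖ *
          ∑ n ∈ RR z Y, (if p ^ i ∣ n then 1 / (n : ℝ) else 0) := by
        rw [sum_comm]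
        apply sum_congr rfl
        intro p _
        rw [sum_comm]
        apply sum_congr rfl
        intro i _
        rw [mul_sum]
    _ ≤ ∑ p ∈ PQ z Y, ∑ i ∈ Icc 1 Y, ‖ni u p - 1‖ *
          (((p : ℝ) ^ i)⁻¹ * ∑ m ∈ RR z Y, 1 / (m : ℝ)) := by
        apply sum_le_sum
        intro p hp
        have hpp := ((mem_PQ hz0).1 hp).1
        apply sum_le_sum
        intro i _
        apply mul_le_mul_of_nonneg_left _ (norm_nonneg _)
        have h := sum_RR_dvd z Y (p ^ i) (Nat.one_le_pow _ _ hpp.pos)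
        push_cast at h
        exact h
    _ = ∑ p ∈ PQ z Y, ‖ni u p - 1‖ * (∑ i ∈ Icc 1 Y, ((p : ℝ) ^ i)⁻¹) *
          ∑ m ∈ RR z Y, 1 / (m : ℝ) := by
        apply sum_congr rfl
        intro p _
        rw [mul_assoc, sum_mul, mul_sum]
    _ ≤ ∑ p ∈ PQ z Y, (2 * (1 / (p : ℝ) * ‖ni u p - 1‖)) * ∑ m ∈ RR z Y, 1 / (m : ℝ) := by
        apply sum_le_sum
        intro p hp
        have hpp := ((mem_PQ hz0).1 hp).1
        apply mul_le_mul_of_nonneg_right _ hPi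
        have h := geom_le p Y hpp.two_le
        calc ‖ni u p - 1‖ * (∑ i ∈ Icc 1 Y, ((p : ℝ) ^ i)⁻¹) ≤ ‖ni u p - 1‖ * (2 / p) :=
              mul_le_mul_of_nonneg_left h (norm_nonneg _)
          _ = 2 * (1 / (p : ℝ) * ‖ni u p - 1‖) := by ring
    _ = 2 * (∑ p ∈ PQ z Y, 1 / (p : ℝ) * ‖ni u p - 1‖) * ∑ m ∈ RR z Y, 1 / (m : ℝ) := by
        rw [← sum_mul, ← mul_sum]
    _ ≤ 2 * (∑ p ∈ PQ z Y, 1 / (p : ℝ) * ‖ni u p - 1‖) *
          ∏ p ∈ PQ z Y, (1 - 1 / (p : ℝ))⁻¹ := by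
        apply mul_le_mul_of_nonneg_left (sum_RR_le z hz Y)
        have : 0 ≤ ∑ p ∈ PQ z Y, 1 / (p : ℝ) * ‖ni u p - 1‖ := sum_nonneg fun p _ => by positivity
        linarith

end Pool.Agent.H83.VU
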