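import Pool.Agent.H69.VU.ALL
import Pool.Agent.H38.VU.BER
import Pool.Agent.H99.VU.BI1
import Pool.Agent.H94.VU.BI2
import Pool.Agent.H88.VU.BI3
import Pool.Agent.H1.VU.BIL
import Pool.Agent.H23.VU.BND
import Pool.Agent.H1.VU.CLS
import Pool.Agent.H61.VU.CS
import Pool.Agent.H94.VU.DEG
import Pool.Agent.H88.VU.DSC
import Pool.Agent.H83.VU.EIR
import Pool.Agent.H62.VU.GAP
import Pool.Agent.H72.VU.GP2
import Pool.Agent.H48.VU.GP3
import Pool.Agent.H81.VU.HOL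
import Pool.Agent.H59.VU.LIN
import Pool.Agent.H48.VU.MB
import Pool.Agent.H13.VU.MET
import Pool.Agent.H81.VU.MJ
import Pool.Agent.H38.VU.MV2
import Pool.Agent.H23.VU.MVT
import Pool.Agent.H59.VU.NEW
import Pool.Agent.H36.VU.ODD
import Pool.Agent.H91.VU.ORT
import Pool.Agent.H38.VU.PGN
import Pool.Agent.H91.VU.POL
import Pool.Agent.H73.VU.POS
import Pool.Agent.H99.VU.PRM
import Pool.Agent.H46.VU.REC
import Pool.Agent.H81.VU.REP
import Pool.Agent.H91.VU.RES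
import Pool.Agent.H62.VU.RGH
import Pool.Agent.H20.VU.ROT
import Pool.Agent.H99.VU.SHF
import Pool.Agent.H59.VU.SML
import Pool.Agent.H88.VU.SPB
import Pool.Agent.H16.VU.TAY
import Pool.Agent.H38.VU.TR
import Pool.Agent.H91.VU.TRI
import Pool.Agent.H1.VU.VIN
import Pool.Agent.H31.MP.All

/-! Assembly of the board vin_modules: Vinogradov mean value with uniform degree, primes and the gap principle, all rows closed. -/

namespace Pool.Agent.H83.VU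

theorem aSHF : T_SHF := Pool.Agent.H99.VU.pf_SHF
theorem aTAY : T_TAY := Pool.Agent.H16.VU.pf_TAY
theorem aBI1 : T_BI1 := Pool.Agent.H99.VU.pf_BI1
theorem aCS : T_CS := Pool.Agent.H61.VU.pf_CS
theorem aBI2 : T_BI2 := Pool.Agent.H94.VU.pf_BI2 aCS
theorem aBI3 : T_BI3 := Pool.Agent.H88.VU.pf_BI3 aCS
theorem aBIL : T_BIL := Pool.Agent.H1.VU.pf_BIL aBI1 aBI2 aBI3
theorem aORT : T_ORT := Pool.Agent.H91.VU.pf_ORT
theorem aREP : T_REP := Pool.Agent.H81.VU.pf_REP aORT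
theorem aHOL : T_HOL := Pool.Agent.H81.VU.pf_HOL aREP
theorem aPOL : T_POL := Pool.Agent.H91.VU.pf_POL
theorem aTRI : T_TRI := Pool.Agent.H91.VU.pf_TRI aPOL
theorem aRES : T_RES := Pool.Agent.H91.VU.pf_RES aTRI
theorem aCLS : T_CLS := Pool.Agent.H1.VU.pf_CLS aCS aPOL aRES
theorem aNEW : T_NEW := Pool.Agent.H59.VU.pf_NEW
theorem aPRM : T_PRM := Pool.Agent.H99.VU.pf_PRM aNEW
theorem aLIN : T_LIN := Pool.Agent.H59.VU.pf_LIN aPRM
theorem aSPB : T_SPB := Pool.Agent.H88.VU.pf_SPB aHOL aCLS aLIN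
theorem aPOS : T_POS := Pool.Agent.H73.VU.pf_POS
theorem aDEG : T_DEG := Pool.Agent.H94.VU.pf_DEG
theorem aDSC : T_DSC := Pool.Agent.H88.VU.pf_DSC
theorem aBER : T_BER := Pool.Agent.H38.VU.pf_BER
theorem aREC : T_REC := Pool.Agent.H46.VU.pf_REC aSPB aPOS aDEG aDSC aBER
theorem aMVT : T_MVT := Pool.Agent.H23.VU.pf_MVT aREC
theorem aMV2 : T_MV2 := Pool.Agent.H38.VU.pf_MV2 aMVT
theorem aMJ : T_MJ := Pool.Agent.H81.VU.pf_MJ
theorem aBND : T_BND := Pool.Agent.H23.VU.pf_BND aBIL aMV2 aMJ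
theorem aVIN : T_VIN := Pool.Agent.H1.VU.pf_VIN aSHF aTAY aBND
theorem aSML : T_SML := Pool.Agent.H59.VU.pf_SML
theorem aALL : T_ALL := Pool.Agent.H69.VU.pf_ALL aVIN aSML
theorem aEIR : T_EIR := Pool.Agent.H83.VU.pf_EIR
theorem aODD : T_ODD := Pool.Agent.H36.VU.pf_ODD aALL
theorem aMET : T_MET := Pool.Agent.H13.VU.pf_MET Pool.Agent.H31.MP.All.tMR
theorem aRGH : T_RGH := Pool.Agent.H62.VU.pf_RGH aODD aMET Pool.Agent.H31.MP.All.bBL Pool.Agent.H31.MP.All.bBU Pool.Agent.H31.MP.All.tQK Pool.Agent.H31.MP.All.tSD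
theorem aTR : T_TR := Pool.Agent.H38.VU.pf_TR
theorem aROT : T_ROT := Pool.Agent.H20.VU.pf_ROT
theorem aPGN : T_PGN := Pool.Agent.H38.VU.pf_PGN
theorem aGAP : T_GAP := Pool.Agent.H62.VU.pf_GAP aRGH aEIR aTR aROT aPGN aMET
theorem aMB : T_MB := Pool.Agent.H48.VU.pf_MB
theorem aGP2 : T_GP2 := Pool.Agent.H72.VU.pf_GP2 aGAP aMB
theorem aGP3 : T_GP3 := Pool.Agent.H48.VU.pf_GP3 aGP2 aMET

end Pool.Agent.H83.VU
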