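import Pool.Agent.H83.VU.Targets
import Pool.Agent.H31.MP.Targets2

/-!
# The gap for `p ^ (i u)` over the prime numbers: targets
-/

set_option autoImplicit false

open Finset

namespace Pool.Agent.H83.VU

/-- the prime numbers in `(P, Q]` -/
noncomputable def PQ (P Q : ℝ) : Finset ℕ := (Ioc ⌊P⌋₊ ⌊Q⌋₊).filter Nat.Prime

open Classical in
/-- the `n` in `(N, 2 N]` all of whose prime factors are larger than `z` -/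
noncomputable def RO (z : ℝ) (N : ℕ) : Finset ℕ :=
  (Ioc N (2 * N)).filter fun n => ∀ p : ℕ, p.Prime → p ∣ n → z < (p : ℝ)

open Classical in
/-- the `n` in `[1, Y]` all of whose prime factors are larger than `z` -/
noncomputable def RR (z : ℝ) (Y : ℕ) : Finset ℕ :=
  (Icc 1 Y).filter fun n => ∀ p : ℕ, p.Prime → p ∣ n → z < (p : ℝ)

/-- the mean value of `t ^ (i u)` on `[1, 2]` -/
noncomputable def mi (u : ℝ) : ℂ := (2 * ni u 2 - 1) / (1 + (u : ℂ) * Complex.I)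

/-- the weight `1 + Re (w n ^ (i u))` -/
noncomputable def wc (u : ℝ) (w : ℂ) (n : ℕ) : ℝ := 1 + (w * ni u n).re

/-- ODD. The weight of the odd multiples of the odd number `d`. -/
def T_ODD : Prop := ∃ N₀ : ℕ, ∀ (N d : ℕ) (u : ℝ) (w : ℂ), N₀ ≤ N → Odd d → (d : ℝ) ≤ (N : ℝ) ^ (1 / 2 : ℝ) →
  |u| ≤ Real.exp ((Real.log N / 4) ^ (13 / 12 : ℝ)) → ‖w‖ ≤ 1 →
    |∑ n ∈ (Ioc N (2 * N)).filter (fun n => Odd n ∧ d ∣ n), wc u w n -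
      (N : ℝ) / 2 * (1 + (w * ni u N * mi u).re) / d| ≤
      (N : ℝ) / d * Real.exp (-((Real.log N / 4) ^ (1 / 6 : ℝ)))

/-- RGH. Rough numbers, twisted. -/
def T_RGH : Prop := ∀ η : ℝ, 0 < η → ∃ B N₀ : ℕ, ∀ N : ℕ, N₀ ≤ N → ∀ z : ℝ, 3 ≤ z →
  z ^ B ≤ (N : ℝ) → ∀ u : ℝ, |u| ≤ Real.exp ((Real.log N / 4) ^ (13 / 12 : ℝ)) →
    |((RO z N).card : ℝ) - N * Pool.Agent.H31.MP.Me z| ≤ η * (N * Pool.Agent.H31.MP.Me z) ∧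
    ‖∑ n ∈ RO z N, ni u n - N * Pool.Agent.H31.MP.Me z * (ni u N * mi u)‖ ≤
      η * (N * Pool.Agent.H31.MP.Me z)

/-- EIR. Rough numbers against prime numbers. -/
def T_EIR : Prop := ∀ (u z : ℝ) (Y : ℕ), 1 ≤ z →
  ∑ n ∈ RR z Y, 1 / (n : ℝ) * ‖ni u n - 1‖ ≤
    2 * (∑ p ∈ PQ z Y, 1 / (p : ℝ) * ‖ni u p - 1‖) * ∏ p ∈ PQ z Y, (1 - 1 / (p : ℝ))⁻¹

/-- TR. The mean value is not close to one. -/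
def T_TR : Prop := ∃ c : ℝ, 0 < c ∧ c ≤ 1 ∧ ∀ u : ℝ, 1 / 10 ≤ |u| → ‖mi u‖ ≤ 1 - c

/-- ROT. Rotations. -/
def T_ROT : Prop := ∀ (θ : ℝ) (i₀ m : ℕ) (S : Finset ℕ), 0 < |θ| → |θ| ≤ 1 / 10 → 16 ≤ m * |θ| →
  S ⊆ Ico i₀ (i₀ + m) → (∀ i ∈ S, ‖Complex.exp ((θ * i : ℝ) * Complex.I) - 1‖ ≤ 1 / 2) →
    (S.card : ℝ) ≤ 9 / 10 * m

/-- PGN. Dirichlet's theorem. -/
def T_PGN : Prop := ∀ ε : ℝ, 0 < ε → ∃ M : ℕ, ∀ z : ℂ, ‖z‖ = 1 →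
  ∃ m : ℕ, 1 ≤ m ∧ m ≤ M ∧ ‖z ^ m - 1‖ ≤ ε

/-- MET. Mertens. -/
def T_MET : Prop := ∃ C : ℝ, 0 < C ∧ ∀ (P : ℝ) (b : ℕ), 2 ≤ P → 1 ≤ b →
  ∑ p ∈ PQ P (P ^ b), 1 / (p : ℝ) ≤ C * b ∧
  ∏ p ∈ PQ P (P ^ b), (1 - 1 / (p : ℝ))⁻¹ ≤ C * b ∧
  Pool.Agent.H31.MP.Me P ≤ C / Real.log P ∧ 1 / (C * Real.log P) ≤ Pool.Agent.H31.MP.Me P

/-- GAP. The spectral gap. -/
def T_GAP : Prop := ∀ c₁ : ℝ, 0 < c₁ → ∃ (b : ℕ) (c X₀ : ℝ), 0 < c ∧ ∀ X P u : ℝ, X₀ ≤ X →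
  Real.exp (Real.log X ^ (19 / 20 : ℝ)) ≤ P → c₁ / Real.log P ≤ |u| → |u| ≤ X ^ 3 →
    ∀ z : ℂ, ‖z‖ = 1 → c ≤ ∑ p ∈ PQ P (P ^ b), 1 / (p : ℝ) * ‖ni u p - z‖ ^ 2

end Pool.Agent.H83.VU
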