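import Mathlib

/-!
# Exponential sums over the integers, uniform in the degree: definitions
-/

set_option autoImplicit false

open Finset

namespace Pool.Agent.H83.VU

/-- `e x = exp (2 π i x)` -/
noncomputable def e (x : ℝ) : ℂ := Complex.exp ((2 * Real.pi * x : ℝ) * Complex.I)

/-- `ni u n = n ^ (i u)` -/
noncomputable def ni (u : ℝ) (n : ℕ) : ℂ := Complex.exp ((u * Real.log n : ℝ) * Complex.I)

/-- the vectors of length `s` with entries in `A` -/
def vec (s : ℕ) (A : Finset ℤ) : Finset (Fin s → ℤ) := Fintype.piFinset fun _ => A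

/-- the vectors of length `s` with entries in `1, …, N` -/
noncomputable def box (s N : ℕ) : Finset (Fin s → ℤ) := vec s (Icc 1 (N : ℤ))

/-- the power sums of degree `1, …, k` -/
def ps (k : ℕ) {s : ℕ} (x : Fin s → ℤ) : Fin k → ℤ := fun j => ∑ i, x i ^ ((j : ℕ) + 1)

/-- the number of pairs `(u, v)` of vectors over `A` with `ps u - ps v = h` -/
def rr (k s : ℕ) (A : Finset ℤ) (h : Fin k → ℤ) : ℕ :=
  ((vec s A ×ˢ vec s A).filter fun q => ps k q.1 - ps k q.2 = h).card

/-- the number of solutions of the Vinogradov system of degree `k` in `2 s` variables -/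
noncomputable def J (s k N : ℕ) : ℕ := rr k s (Icc 1 (N : ℤ)) 0

/-- solutions of `ps x + ps u = ps y + ps v`, with `x, y` in `X`, `u, v` vectors over `A` -/
def cA (k s : ℕ) (X : Finset (Fin k → ℤ)) (A : Finset ℤ) : ℕ :=
  (((X ×ˢ X) ×ˢ (vec s A ×ˢ vec s A)).filter fun q =>
    ps k q.1.1 + ps k q.2.1 = ps k q.1.2 + ps k q.2.2).card

/-- the injective vectors of length `k` over `1, …, N` -/
noncomputable def II (k N : ℕ) : Finset (Fin k → ℤ) := (box k N).filter fun x => ∀ i j, x i = x j → i = j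

/-- the vectors of length `k` over `1, …, N` which are injective modulo `p` -/
noncomputable def XX (k N p : ℕ) : Finset (Fin k → ℤ) :=
  (box k N).filter fun x => ∀ i j, (p : ℤ) ∣ x i - x j → i = j

/-- the phase `α · g` -/
noncomputable def dt {k : ℕ} (a : Fin k → ℝ) (g : Fin k → ℤ) : ℝ := ∑ j, a j * (g j : ℝ)

/-- the vector `(x, x ^ 2, …, x ^ k)` -/
def pw (k : ℕ) (x : ℤ) : Fin k → ℤ := fun j => x ^ ((j : ℕ) + 1)

/-- the double sum `∑_{|g| ≤ L} |∑_{|h| ≤ L} e(a g h)|` -/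
noncomputable def MM (a : ℝ) (L : ℕ) : ℝ :=
  ∑ g ∈ Icc (-(L : ℤ)) L, ‖∑ h ∈ Icc (-(L : ℤ)) L, e (a * g * h)‖

/-- the bilinear sum -/
noncomputable def BB {k : ℕ} (a : Fin k → ℝ) (Z : ℕ) : ℂ :=
  ∑ x ∈ Icc 1 (Z : ℤ), ∑ y ∈ Icc 1 (Z : ℤ), e (dt a (pw k (x * y)))

/-- the loss of the mean value theorem after `r` steps -/
noncomputable def eta (k r : ℕ) : ℝ := (k * (k + 1) / 2 : ℝ) * (1 - 1 / (k : ℝ)) ^ r

/-- the Taylor coefficients of `(u / 2 π) log (n + t)` -/
noncomputable def tc (k : ℕ) (u : ℝ) (n : ℕ) : Fin k → ℝ := fun j =>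
  (-1) ^ (j : ℕ) * u / (2 * Real.pi * ((j : ℝ) + 1) * (n : ℝ) ^ ((j : ℕ) + 1))

theorem e_add (x y : ℝ) : e (x + y) = e x * e y := by
  unfold e
  rw [← Complex.exp_add]
  congr 1
  push_cast
  ring

theorem norm_e (x : ℝ) : ‖e x‖ = 1 := by
  unfold e
  exact Complex.norm_exp_ofReal_mul_I _

theorem e_zero : e 0 = 1 := by
  simp [e]

theorem e_int (n : ℤ) : e n = 1 := by
  unfold e
  rw [show (((2 * Real.pi * (n : ℝ) : ℝ) : ℂ)) * Complex.I = n * (2 * Real.pi * Complex.I) by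
    push_cast; ring]
  exact Complex.exp_int_mul_two_pi_mul_I n

theorem e_neg (x : ℝ) : e (-x) = (starRingEnd ℂ) (e x) := by
  unfold e
  rw [← Complex.exp_conj, map_mul, Complex.conj_I, Complex.conj_ofReal]
  congr 1
  push_cast
  ring

theorem e_sum {ι : Type*} (s : Finset ι) (f : ι → ℝ) : e (∑ i ∈ s, f i) = ∏ i ∈ s, e (f i) := by
  classical
  induction s using Finset.induction_on with
  | empty => simp [e_zero]
  | insert a s ha ih => rw [sum_insert ha, prod_insert ha, e_add, ih]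

theorem norm_ni (u : ℝ) (n : ℕ) : ‖ni u n‖ = 1 := by
  unfold ni
  exact Complex.norm_exp_ofReal_mul_I _

theorem ni_mul (u : ℝ) (m n : ℕ) (hm : m ≠ 0) (hn : n ≠ 0) : ni u (m * n) = ni u m * ni u n := by
  unfold ni
  rw [← Complex.exp_add, Nat.cast_mul, Real.log_mul (by exact_mod_cast hm) (by exact_mod_cast hn)]
  congr 1
  push_cast
  ring

theorem ni_pow (u : ℝ) (n m : ℕ) : ni u n ^ m = ni (m * u) n := by
  unfold ni
  rw [← Complex.exp_nat_mul]
  congr 1
  push_cast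
  ring

theorem dt_add {k : ℕ} (a : Fin k → ℝ) (g h : Fin k → ℤ) : dt a (g + h) = dt a g + dt a h := by
  unfold dt
  rw [← sum_add_distrib]
  apply sum_congr rfl
  intro j _
  simp only [Pi.add_apply]
  push_cast
  ring

theorem dt_sub {k : ℕ} (a : Fin k → ℝ) (g h : Fin k → ℤ) : dt a (g - h) = dt a g - dt a h := by
  unfold dt
  rw [← sum_sub_distrib]
  apply sum_congr rfl
  intro j _
  simp only [Pi.sub_apply]
  push_cast
  ring

theorem ps_eq_sum (k : ℕ) {s : ℕ} (x : Fin s → ℤ) : ps k x = ∑ i, pw k (x i) := by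
  funext j
  simp [ps, pw, Finset.sum_apply]

theorem mem_vec {s : ℕ} {A : Finset ℤ} {x : Fin s → ℤ} : x ∈ vec s A ↔ ∀ i, x i ∈ A := by
  simp [vec, Fintype.mem_piFinset]

theorem card_vec (s : ℕ) (A : Finset ℤ) : (vec s A).card = A.card ^ s := by
  simp [vec, Fintype.card_piFinset]

end Pool.Agent.H83.VU
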