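import Pool.Agent.H83.VU.Defs

/-!
# Exponential sums over the integers, uniform in the degree: targets
-/

set_option autoImplicit false

open Finset Polynomial

namespace Pool.Agent.H83.VU

/-! ## Part I: the mean value theorem with explicit dependence on the degree -/

/-- ORT. Orthogonality. -/
def T_ORT : Prop := ∀ (k M : ℕ) (h : Fin k → ℤ), 0 < M → (∀ j, |h j| < (M : ℤ)) →
  ∑ α ∈ Fintype.piFinset (fun _ : Fin k => range M), e ((∑ j, (α j : ℝ) * (h j : ℝ)) / M) =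
    if h = 0 then (M : ℂ) ^ k else 0

/-- REP. The number of solutions as a mean value. -/
def T_REP : Prop := ∀ (k s N : ℕ) (X : Finset (Fin k → ℤ)), X ⊆ box k N → ∃ M₀ : ℕ, ∀ M : ℕ,
  M₀ ≤ M → ∀ A : Finset ℤ, A ⊆ Icc 1 (N : ℤ) →
    (M : ℝ) ^ k * (cA k s X A : ℝ) = ∑ α ∈ Fintype.piFinset (fun _ : Fin k => range M),
      ‖∑ x ∈ X, e (dt (fun j => (α j : ℝ) / M) (ps k x))‖ ^ 2 *
        ‖∑ n ∈ A, e (dt (fun j => (α j : ℝ) / M) (pw k n))‖ ^ (2 * s)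

/-- HOL. Reduction to one residue class. -/
def T_HOL : Prop := ∀ (k s N p : ℕ) (X : Finset (Fin k → ℤ)), 1 ≤ s → 1 ≤ p → X ⊆ box k N →
  ∃ a : ℕ, a < p ∧ cA k s X (Icc 1 (N : ℤ)) ≤
    p ^ (2 * s) * cA k s X ((Icc 1 (N : ℤ)).filter fun n => (p : ℤ) ∣ n - a)

/-- CS. The homogeneous system has the most solutions. -/
def T_CS : Prop := ∀ (k s : ℕ) (A : Finset ℤ) (h : Fin k → ℤ), rr k s A h ≤ rr k s A 0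

/-- POL. Polynomials of degree at most `k` at solutions. -/
def T_POL : Prop := ∀ (k r s : ℕ) (x y : Fin r → ℤ) (u v : Fin s → ℤ),
  ps k x + ps k u = ps k y + ps k v → ∀ P : ℤ[X], P.natDegree ≤ k →
    ∑ i, P.eval (x i) + ∑ i, P.eval (u i) = ∑ i, P.eval (y i) + ∑ i, P.eval (v i)

/-- TRI. Invariance under translations and dilations. -/
def T_TRI : Prop := ∀ (k s : ℕ) (u v : Fin s → ℤ) (a c : ℤ), c ≠ 0 →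
  (ps k (fun i => c * u i + a) = ps k (fun i => c * v i + a) ↔ ps k u = ps k v)

/-- RES. Solutions in one residue class. -/
def T_RES : Prop := ∀ (k s N p a : ℕ), 1 ≤ p →
  rr k s ((Icc 1 (N : ℤ)).filter fun n => (p : ℤ) ∣ n - a) 0 ≤ J s k (N / p + 1)

/-- CLS. Solutions with `u`, `v` in one residue class. -/
def T_CLS : Prop := ∀ (k s N p a : ℕ) (X : Finset (Fin k → ℤ)), 1 ≤ p →
  cA k s X ((Icc 1 (N : ℤ)).filter fun n => (p : ℤ) ∣ n - a) ≤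
    ((X ×ˢ X).filter fun q => ∀ j ∈ Icc 1 k,
      (p : ℤ) ^ j ∣ ∑ i, (q.1 i - (a : ℤ)) ^ j - ∑ i, (q.2 i - (a : ℤ)) ^ j).card * J s k (N / p + 1)

/-- NEW. Newton's identities modulo `p ^ m`. -/
def T_NEW : Prop := ∀ (k p m : ℕ) (x y : Fin k → ℤ), p.Prime → k < p →
  (∀ j ∈ Icc 1 k, (p : ℤ) ^ m ∣ ∑ i, x i ^ j - ∑ i, y i ^ j) →
    ∀ z : ℤ, (p : ℤ) ^ m ∣ ∏ i, (z - x i) - ∏ i, (z - y i)

/-- PRM. Solutions modulo `p ^ m` are permutations of each other. -/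
def T_PRM : Prop := ∀ (k p m : ℕ) (x y : Fin k → ℤ), p.Prime → k < p → 1 ≤ m →
  (∀ i j, (p : ℤ) ∣ x i - x j → i = j) → (∀ i j, (p : ℤ) ∣ y i - y j → i = j) →
  (∀ j ∈ Icc 1 k, (p : ℤ) ^ m ∣ ∑ i, x i ^ j - ∑ i, y i ^ j) →
    ∃ σ : Equiv.Perm (Fin k), ∀ i, (p : ℤ) ^ m ∣ y i - x (σ i)

/-- LIN. Linnik's lemma. -/
def T_LIN : Prop := ∀ (k p N : ℕ) (a : ℤ) (c : ℕ → ℤ), p.Prime → k < p → N ≤ p ^ k → 1 ≤ k →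
  ((XX k N p).filter fun x => ∀ j ∈ Icc 1 k, (p : ℤ) ^ j ∣ ∑ i, (x i - a) ^ j - c j).card ≤
    k.factorial * p ^ (k * (k - 1) / 2)

/-- SPB. Solutions with `x`, `y` injective modulo `p`. -/
def T_SPB : Prop := ∀ (k s N p : ℕ), 1 ≤ k → 1 ≤ s → p.Prime → k < p → N ≤ p ^ k →
  cA k s (XX k N p) (Icc 1 (N : ℤ)) ≤
    p ^ (2 * s) * (N ^ k * (k.factorial * p ^ (k * (k - 1) / 2))) * J s k (N / p + 1)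

/-- POS. Choice of the positions of `k` different values. -/
def T_POS : Prop := ∀ (k s N : ℕ), 1 ≤ k →
  ((box (s + k) N ×ˢ box (s + k) N).filter fun q => ps k q.1 = ps k q.2 ∧
    k ≤ (univ.image q.1).card ∧ k ≤ (univ.image q.2).card).card ≤
    (s + k) ^ (2 * k) * cA k s (II k N) (Icc 1 (N : ℤ))

/-- DEG. Solutions with few values. -/
def T_DEG : Prop := ∀ (k T N : ℕ), 2 ≤ k → 1 ≤ N →
  ((((box T N ×ˢ box T N).filter fun q => ps k q.1 = ps k q.2 ∧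
    (univ.image q.1).card < k).card : ℕ) : ℝ) ≤
    (k : ℝ) ^ T * (N : ℝ) ^ (k - 1) * Real.sqrt (J T k N)

/-- DSC. A prime number which does not divide the discriminants. -/
def T_DSC : Prop := ∀ (k N : ℕ) (P : Finset ℕ) (x y : Fin k → ℤ), 2 ≤ k → x ∈ II k N →
  y ∈ II k N → k ^ 3 ≤ P.card → (∀ p ∈ P, p.Prime ∧ N < p ^ k) →
    ∃ p ∈ P, x ∈ XX k N p ∧ y ∈ XX k N p

/-- BER. Many prime numbers. -/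
def T_BER : Prop := ∀ m x : ℕ, 1 ≤ x → ∃ P : Finset ℕ, P.card = m ∧
  ∀ p ∈ P, p.Prime ∧ x < p ∧ p ≤ 2 ^ m * x

/-- REC. The recursion. -/
def T_REC : Prop := ∀ (k s N : ℕ), 2 ≤ k → 1 ≤ s → 2 ^ (2 * k ^ 3 + 2 * k) ≤ N →
  ∃ p : ℕ, p.Prime ∧ p ≤ N ∧ (p : ℝ) ≤ 2 ^ (k ^ 3 + 1) * (N : ℝ) ^ (1 / (k : ℝ)) ∧
    (J (s + k) k N : ℝ) ≤ 16 * ((k : ℝ) ^ (s + k) * (N : ℝ) ^ (k - 1)) ^ 2 +
      2 * ((s : ℝ) + k) ^ (2 * k) * (k : ℝ) ^ 3 *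
        ((p : ℝ) ^ (2 * s) * ((N : ℝ) ^ k * ((k.factorial : ℝ) * (p : ℝ) ^ (k * (k - 1) / 2))) *
          J s k (N / p + 1))

/-- MVT. The mean value theorem. -/
def T_MVT : Prop := ∃ C : ℝ, 0 < C ∧ ∀ k r N : ℕ, 2 ≤ k → 1 ≤ r → r ≤ 10 * k ^ 2 + 1 → 1 ≤ N →
  (J (r * k) k N : ℝ) ≤ Real.exp (C * (k : ℝ) ^ 8) *
    (N : ℝ) ^ (2 * (r : ℝ) * k - (k : ℝ) * (k + 1) / 2 + eta k (r - 1))

/-- MV2. The mean value theorem with a small loss. -/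
def T_MV2 : Prop := ∃ C : ℝ, 0 < C ∧ ∀ k N : ℕ, 2 ≤ k → 1 ≤ N →
  (J ((10 * k ^ 2 + 1) * k) k N : ℝ) ≤ Real.exp (C * (k : ℝ) ^ 8) *
    (N : ℝ) ^ (2 * ((10 * (k : ℝ) ^ 2 + 1) * k) - (k : ℝ) * (k + 1) / 2 + 1 / 40)

/-! ## Part II: bilinear sums -/

/-- the inner sum -/
noncomputable def VV {k : ℕ} (a : Fin k → ℝ) (Z : ℕ) (h : Fin k → ℤ) : ℂ :=
  ∑ x ∈ Icc 1 (Z : ℤ), e (dt a (pw k x * h))

/-- the box of the differences of the power sums -/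
noncomputable def HH (k s Z : ℕ) : Finset (Fin k → ℤ) :=
  Fintype.piFinset fun j => Icc (-((s * Z ^ ((j : ℕ) + 1) : ℕ) : ℤ)) ((s * Z ^ ((j : ℕ) + 1) : ℕ) : ℤ)

/-- BI1. First step. -/
def T_BI1 : Prop := ∀ (k s Z : ℕ) (a : Fin k → ℝ), 1 ≤ s →
  ‖BB a Z‖ ^ (2 * s) ≤ (Z : ℝ) ^ (2 * s - 1) *
    ∑ q ∈ box s Z ×ˢ box s Z, ‖VV a Z (ps k q.1 - ps k q.2)‖

/-- BI2. Second step. -/
def T_BI2 : Prop := ∀ (k s Z : ℕ) (a : Fin k → ℝ), 1 ≤ s →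
  (∑ q ∈ box s Z ×ˢ box s Z, ‖VV a Z (ps k q.1 - ps k q.2)‖) ^ (2 * s) ≤
    ((Z : ℝ) ^ (2 * s)) ^ (2 * s - 2) * ((J s k Z : ℝ) * (Z : ℝ) ^ (2 * s)) *
      ∑ h ∈ HH k s Z, ‖VV a Z h‖ ^ (2 * s)

/-- BI3. Third step. -/
def T_BI3 : Prop := ∀ (k s Z : ℕ) (a : Fin k → ℝ), 1 ≤ s →
  ∑ h ∈ HH k s Z, ‖VV a Z h‖ ^ (2 * s) ≤
    (J s k Z : ℝ) * ∏ j : Fin k, MM (a j) (s * Z ^ ((j : ℕ) + 1))

/-- BIL. The bilinear bound. -/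
def T_BIL : Prop := ∀ (k s Z : ℕ) (a : Fin k → ℝ), 1 ≤ s → 1 ≤ Z →
  ‖BB a Z‖ ^ (4 * s ^ 2) ≤ (Z : ℝ) ^ (8 * s ^ 2 - 4 * s) * (J s k Z : ℝ) ^ 2 *
    ∏ j : Fin k, MM (a j) (s * Z ^ ((j : ℕ) + 1))

/-- MJ. The double sums in one variable. -/
def T_MJ : Prop := ∀ (a : ℝ) (L : ℕ), MM a L ≤ (2 * (L : ℝ) + 1) ^ 2 ∧
  (0 < |a| → 1 ≤ L → |a| * L ≤ 1 / 2 → MM a L ≤ (2 * (L : ℝ) + 1) + (1 + Real.log L) / |a|)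

/-- SHF. Shifts by products. -/
def T_SHF : Prop := ∀ (f : ℕ → ℂ) (N N' Z : ℕ), (∀ n, ‖f n‖ ≤ 1) → N ≤ N' →
  ‖∑ n ∈ Ioc N N', f n‖ * (Z : ℝ) ^ 2 ≤
    ∑ n ∈ Ioc N N', ‖∑ x ∈ Icc 1 Z, ∑ y ∈ Icc 1 Z, f (n + x * y)‖ + 2 * (Z : ℝ) ^ 4

/-- TAY. Taylor expansion. -/
def T_TAY : Prop := ∀ (k n Z : ℕ) (u : ℝ), 1 ≤ n → 2 * Z ^ 2 ≤ n →
  ‖∑ x ∈ Icc 1 Z, ∑ y ∈ Icc 1 Z, ni u (n + x * y)‖ ≤ ‖BB (tc k u n) Z‖ +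
    (Z : ℝ) ^ 2 * (2 * |u| * ((Z : ℝ) ^ 2 / n) ^ (k + 1))

/-- BND. The bound for the bilinear sums. -/
def T_BND : Prop := ∃ N₀ : ℕ, ∀ N n : ℕ, N₀ ≤ N → N ≤ n → n ≤ 3 * N → ∀ u : ℝ,
  (N : ℝ) ^ (1 / 2 : ℝ) ≤ |u| → |u| ≤ Real.exp (Real.log N ^ (13 / 12 : ℝ)) →
    ‖BB (tc (⌊5 * Real.log |u| / Real.log N⌋₊ + 2) u n) ⌊(N : ℝ) ^ (2 / 5 : ℝ)⌋₊‖ ≤
      (⌊(N : ℝ) ^ (2 / 5 : ℝ)⌋₊ : ℝ) ^ 2 * Real.exp (-(Real.log N ^ (1 / 3 : ℝ)))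

/-- VIN. Large frequencies. -/
def T_VIN : Prop := ∃ N₀ : ℕ, ∀ N N' : ℕ, N₀ ≤ N → N ≤ N' → N' ≤ 3 * N → ∀ u : ℝ,
  (N : ℝ) ^ (1 / 2 : ℝ) ≤ |u| → |u| ≤ Real.exp (Real.log N ^ (13 / 12 : ℝ)) →
    ‖∑ n ∈ Ioc N N', ni u n‖ ≤ N * Real.exp (-(Real.log N ^ (1 / 4 : ℝ)))

/-- SML. Comparison with the integral. -/
def T_SML : Prop := ∀ (N N' : ℕ) (u : ℝ), 1 ≤ N → N ≤ N' →
  ‖∑ n ∈ Ioc N N', ni u n - ((N' : ℂ) * ni u N' - (N : ℂ) * ni u N) / (1 + (u : ℂ) * Complex.I)‖ ≤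
    |u| * Real.log ((N' : ℝ) / N)

/-- ALL. All frequencies. -/
def T_ALL : Prop := ∃ N₀ : ℕ, ∀ N N' : ℕ, N₀ ≤ N → N ≤ N' → N' ≤ 3 * N → ∀ u : ℝ,
  |u| ≤ Real.exp (Real.log N ^ (13 / 12 : ℝ)) →
    ‖∑ n ∈ Ioc N N', ni u n -
      ((N' : ℂ) * ni u N' - (N : ℂ) * ni u N) / (1 + (u : ℂ) * Complex.I)‖ ≤
      N * Real.exp (-(Real.log N ^ (1 / 5 : ℝ)))

end Pool.Agent.H83.VU
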