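import Pool.Agent.H83.VU.TargetsG

/-!
# The gap down to frequencies `1 / (R log P)`: targets
-/

set_option autoImplicit false

open Finset

namespace Pool.Agent.H83.VU

/-- MB. Prime numbers between two powers. -/
def T_MB : Prop := ∀ a b : ℝ, 0 < a → a < b → ∃ c y₀ : ℝ, 0 < c ∧ ∀ y : ℝ, y₀ ≤ y →
  c ≤ ∑ p ∈ PQ (y ^ a) (y ^ b), 1 / (p : ℝ)

/-- GP2. The gap for all frequencies from `1 / (R log P)` on. -/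
def T_GP2 : Prop := ∃ R₀ : ℕ, ∀ R : ℕ, R₀ ≤ R → ∃ c X₀ : ℝ, 0 < c ∧ ∀ X P u : ℝ, X₀ ≤ X →
  Real.exp (Real.log X ^ (19 / 20 : ℝ)) ≤ P → 1 / (R * Real.log P) ≤ |u| → |u| ≤ X ^ 3 →
    ∀ z : ℂ, ‖z‖ = 1 → c ≤ ∑ p ∈ PQ P (P ^ R), 1 / (p : ℝ) * ‖ni u p - z‖ ^ 2

/-- GP3. The mean value of `p ^ (i u)` has absolute value at most `1 - c`. -/
def T_GP3 : Prop := ∃ R₀ : ℕ, ∀ R : ℕ, R₀ ≤ R → ∃ c X₀ : ℝ, 0 < c ∧ ∀ X P u : ℝ, X₀ ≤ X →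
  Real.exp (Real.log X ^ (19 / 20 : ℝ)) ≤ P → 1 / (R * Real.log P) ≤ |u| → |u| ≤ X ^ 3 →
    ‖∑ p ∈ PQ P (P ^ R), ((1 / (p : ℝ) : ℝ) : ℂ) * ni u p‖ ≤
      (1 - c) * ∑ p ∈ PQ P (P ^ R), 1 / (p : ℝ)

end Pool.Agent.H83.VU
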